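import Pool.Agent.Helper97.Tate.Goals

/-!
# Packet TATE-TRL (MP_d3128a_ag)
-/

set_option autoImplicit false

namespace Pool.Agent.Helper46.Tate.TRL

open Pool.Agent.Helper97.Tate

theorem key (h2 : S_THC) (k : Type) [Field k] (κ : ℕ) (r : ℤ) (c : k) (H : kˣ) (hc : c ≠ 0)
    (hr0 : 0 ≤ r) (hr : r < κ) (N : ℕ) (n : ℤ) :
    (PowerSeries.coeff N (Th κ r (c * ((H⁻¹ : kˣ) : k) ^ κ))).coeff n =
      (PowerSeries.coeff N (Th κ r c)).coeff n * ((H ^ (r - n) : kˣ) : k) := by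
  have hc' : c * ((H⁻¹ : kˣ) : k) ^ κ ≠ 0 := mul_ne_zero hc (pow_ne_zero _ (Units.ne_zero _))
  have e1 := (h2 k κ r _ hc' hr0 hr).1 N n
  have e2 := (h2 k κ r c hc hr0 hr).1 N n
  rw [cf, if_pos (Int.natCast_nonneg N), Int.toNat_natCast] at e1 e2
  rw [e1, e2]
  split_ifs with h
  · obtain ⟨⟨l, hl⟩, -⟩ := h
    have hκ : (κ : ℤ) ≠ 0 := by omega
    have e3 : (n - r) / κ = l := by rw [hl]; exact Int.mul_ediv_cancel_left _ hκ
    have e4 : r - n = -(κ * l) := by linarith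
    rw [e3, e4, mul_zpow, Units.val_zpow_eq_zpow_val, Units.val_inv_eq_inv_val, ← zpow_natCast,
      ← zpow_mul, inv_zpow']
  · rw [zero_mul]

theorem t (h1 : S_EVC) (h2 : S_THC) : S_TRL := by
  intro k _ κ r c x H α hc hr0 hr
  rw [(h1 k x _ 0 α).2.1, (h1 k (x * H⁻¹) _ 0 α).2.1, ← map_mul]
  congr 1
  ext N
  rw [(h1 k x _ N α).1, PowerSeries.coeff_C_mul, (h1 k (x * H⁻¹) _ N α).1]
  have hs : (PowerSeries.coeff N (Th κ r (c * ((H⁻¹ : kˣ) : k) ^ κ))).coeff.support =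
      (PowerSeries.coeff N (Th κ r c)).coeff.support := by
    ext n
    rw [Finsupp.mem_support_iff, Finsupp.mem_support_iff, key h2 k κ r c H hc hr0 hr]
    exact ⟨fun h => left_ne_zero_of_mul h, fun h => mul_ne_zero h (Units.ne_zero _)⟩
  unfold Finsupp.sum
  rw [hs, Finset.mul_sum]
  refine Finset.sum_congr rfl fun n _ => ?_
  rw [key h2 k κ r c H hc hr0 hr]
  have e : ((H ^ (r - n) : kˣ) : k) * ((x ^ n : kˣ) : k) =
      ((H ^ r : kˣ) : k) * (((x * H⁻¹) ^ n : kˣ) : k) := by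
    rw [← Units.val_mul, ← Units.val_mul]
    congr 1
    rw [zpow_sub, mul_zpow, inv_zpow]
    rw [mul_assoc, mul_comm (H ^ n)⁻¹]
  linear_combination ((PowerSeries.coeff N (Th κ r c)).coeff n * ((Ring.choose n α : ℤ) : k)) * e

end Pool.Agent.Helper46.Tate.TRL
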